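import Pool.Agent.LUB.Stmts

/-!
# Squad LUB, row ELL: existence of the logarithm in `S[Y] / (F)`
-/

set_option autoImplicit false

open Polynomial NumberField

namespace Pool.Agent.LUB.H35

/-- ELL -/
theorem ell : EllStmt := by
  intro p _ S _ _ _ hPC F w hF
  choose c' hc' using lc_dvd p
  set d : ℕ → S[X] := fun k => C (algebraMap ℤ_[p] S (c' k)) * w ^ k with hd
  have hdeg : ∀ k, (d k %ₘ F).degree < F.degree := fun k => degree_modByMonic_lt _ hF
  have hFd : F.degree = F.natDegree := degree_eq_natDegree hF.ne_zero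
  have hq0 : ∀ k j, F.natDegree ≤ j → (d k %ₘ F).coeff j = 0 := by
    intro k j hj
    have h := hdeg k
    rw [hFd] at h
    exact (degree_lt_iff_coeff_zero _ _).1 h j hj
  choose lj hlj using fun j => hPC (fun k => (d k %ₘ F).coeff j)
  set l : S[X] := ∑ j ∈ Finset.range F.natDegree, C (lj j) * X ^ j with hl
  have hlc : ∀ j, l.coeff j = if j < F.natDegree then lj j else 0 := by
    intro j
    rw [hl, finsetSum_coeff]
    simp only [coeff_C_mul, coeff_X_pow, mul_ite, mul_one, mul_zero]
    rw [Finset.sum_ite_eq]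
    simp only [Finset.mem_range]
  refine ⟨l, ?_, fun N => ?_⟩
  · rw [hFd, degree_lt_iff_coeff_zero]
    intro j hj
    rw [hlc, if_neg (not_lt.2 hj)]
  · have hdiv : C ((p : S) ^ N) ∣ l - ∑ k ∈ Finset.range N, C ((p : S) ^ k) * (d k %ₘ F) := by
      rw [C_dvd_iff_dvd_coeff]
      intro j
      rw [coeff_sub, hlc, finsetSum_coeff]
      simp only [coeff_C_mul]
      by_cases hj : j < F.natDegree
      · rw [if_pos hj]
        exact hlj j N
      · rw [if_neg hj, Finset.sum_eq_zero fun k _ => by rw [hq0 k j (not_lt.1 hj), mul_zero],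
          sub_zero]
        exact dvd_zero _
    obtain ⟨a, ha⟩ := hdiv
    refine ⟨a, -∑ k ∈ Finset.range N, C ((p : S) ^ k) * (d k /ₘ F), ?_⟩
    have h1 : ∀ k, C (algebraMap ℤ_[p] S (lc p k)) * w ^ k = C ((p : S) ^ k) * d k := by
      intro k
      rw [hc' k, map_mul, map_pow, map_natCast, C_mul, hd]
      ring
    have h2 : ∑ k ∈ Finset.range N, C ((p : S) ^ k) * (d k %ₘ F) =
        ∑ k ∈ Finset.range N, C (algebraMap ℤ_[p] S (lc p k)) * w ^ k -
          F * ∑ k ∈ Finset.range N, C ((p : S) ^ k) * (d k /ₘ F) := by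
      rw [Finset.mul_sum, ← Finset.sum_sub_distrib]
      refine Finset.sum_congr rfl fun k _ => ?_
      rw [h1, modByMonic_eq_sub_mul_div]
      ring
    rw [h2] at ha
    linear_combination ha

end Pool.Agent.LUB.H35
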