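import Pool.Agent.LUB.Stmts

/-!
# Squad LUB, row BAS: a basis of the multiplicative group modulo constants
-/

set_option autoImplicit false

namespace Pool.Agent.LUB.H35

variable {Ω : Type} [Field Ω] (D : Derivation ℤ Ω Ω) {κ : Type} [Fintype κ] (u : κ → Ω)

/-- the monomial with exponents `m` -/
noncomputable def phi (m : κ → ℤ) : Ω := ∏ k, u k ^ m k

theorem phi_zero : phi u 0 = 1 := by
  unfold phi
  exact Finset.prod_eq_one fun k _ => zpow_zero _

variable {u}

theorem phi_add (hu : ∀ k, u k ≠ 0) (m n : κ → ℤ) : phi u (m + n) = phi u m * phi u n := by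
  unfold phi
  rw [← Finset.prod_mul_distrib]
  exact Finset.prod_congr rfl fun k _ => zpow_add₀ (hu k) _ _

theorem phi_smul (c : ℤ) (m : κ → ℤ) : phi u (c • m) = phi u m ^ c := by
  unfold phi
  rw [← Finset.prod_zpow]
  refine Finset.prod_congr rfl fun k _ => ?_
  rw [Pi.smul_apply, smul_eq_mul, mul_comm, zpow_mul]

theorem phi_sum (hu : ∀ k, u k ≠ 0) {ι : Type} (s : Finset ι) (m : ι → κ → ℤ) :
    phi u (∑ i ∈ s, m i) = ∏ i ∈ s, phi u (m i) := by
  classical
  induction s using Finset.induction_on with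
  | empty => rw [Finset.sum_empty, Finset.prod_empty, phi_zero]
  | insert a s ha ih => rw [Finset.sum_insert ha, Finset.prod_insert ha, phi_add hu, ih]

theorem phi_single [DecidableEq κ] (k : κ) : phi u (Pi.single k 1) = u k := by
  unfold phi
  rw [Finset.prod_eq_single k]
  · rw [Pi.single_eq_same, zpow_one]
  · intro j _ hj
    rw [Pi.single_eq_of_ne hj, zpow_zero]
  · intro h
    exact absurd (Finset.mem_univ k) h

theorem phi_ne (hu : ∀ k, u k ≠ 0) (m : κ → ℤ) : phi u m ≠ 0 :=
  Finset.prod_ne_zero_iff.2 fun k _ => zpow_ne_zero _ (hu k)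

/-- the relations modulo constants -/
noncomputable def rel (hu : ∀ k, u k ≠ 0) : Submodule ℤ (κ → ℤ) where
  carrier := {m | D (phi u m) = 0}
  zero_mem' := by
    show D (phi u 0) = 0
    rw [phi_zero, D.map_one_eq_zero]
  add_mem' := by
    intro m n hm hn
    show D (phi u (m + n)) = 0
    rw [phi_add hu, D.leibniz, show D (phi u m) = 0 from hm, show D (phi u n) = 0 from hn,
      smul_zero, smul_zero, add_zero]
  smul_mem' := by
    intro c m hm
    show D (phi u (c • m)) = 0
    rw [phi_smul, D.leibniz_zpow, show D (phi u m) = 0 from hm, smul_zero, smul_zero]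

theorem mem_rel (hu : ∀ k, u k ≠ 0) (m : κ → ℤ) : m ∈ rel D hu ↔ D (phi u m) = 0 := Iff.rfl

theorem rel_tf [CharZero Ω] (hu : ∀ k, u k ≠ 0) :
    Module.IsTorsionFree ℤ ((κ → ℤ) ⧸ rel D hu) := by
  refine Module.IsTorsionFree.of_smul_eq_zero fun r m h => ?_
  by_cases hr : r = 0
  · exact Or.inl hr
  · right
    obtain ⟨m, rfl⟩ := Submodule.Quotient.mk_surjective _ m
    rw [← Submodule.Quotient.mk_smul, Submodule.Quotient.mk_eq_zero, mem_rel, phi_smul,
      D.leibniz_zpow] at h
    rw [Submodule.Quotient.mk_eq_zero, mem_rel]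
    have h1 : (r : Ω) * (phi u m ^ (r - 1) * D (phi u m)) = 0 := by
      rw [← zsmul_eq_mul]
      exact h
    rcases mul_eq_zero.1 h1 with h2 | h2
    · exact absurd (Int.cast_eq_zero.1 h2) hr
    · rcases mul_eq_zero.1 h2 with h3 | h3
      · exact absurd h3 (zpow_ne_zero _ (phi_ne hu m))
      · exact h3

/-- BAS -/
theorem bas : BasStmt := by
  intro Ω _ _ D κ _ u hu
  classical
  have htf := rel_tf D hu
  obtain ⟨q, b⟩ : Σ n : ℕ, Module.Basis (Fin n) ℤ ((κ → ℤ) ⧸ rel D hu) :=
    Module.basisOfFiniteTypeTorsionFree'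
  choose B hB using fun l => Submodule.Quotient.mk_surjective _ (b l)
  refine ⟨q, B, fun k l => b.repr (Submodule.Quotient.mk (Pi.single k 1)) l, fun k => ?_,
    fun m hm => ?_⟩
  · have h1 : (Pi.single k 1 + -∑ l, b.repr (Submodule.Quotient.mk (Pi.single k 1)) l • B l :
        κ → ℤ) ∈ rel D hu := by
      rw [← Submodule.Quotient.mk_eq_zero, Submodule.Quotient.mk_add, Submodule.Quotient.mk_neg]
      have h2 : (Submodule.Quotient.mk
          (∑ l, b.repr (Submodule.Quotient.mk (Pi.single k 1)) l • B l) :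
            (κ → ℤ) ⧸ rel D hu) = Submodule.Quotient.mk (Pi.single k 1) := by
        rw [← Submodule.mkQ_apply, map_sum]
        simp only [map_zsmul, Submodule.mkQ_apply, hB]
        exact b.sum_repr _
      rw [h2, add_neg_cancel]
    rw [mem_rel, phi_add hu, phi_single] at h1
    have h3 : phi u (-∑ l, b.repr (Submodule.Quotient.mk (Pi.single k 1)) l • B l) =
        (∏ l, (∏ k', u k' ^ B l k') ^
          b.repr (Submodule.Quotient.mk (Pi.single k 1)) l)⁻¹ := by
      rw [← neg_one_smul ℤ, phi_smul, zpow_neg_one, phi_sum hu]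
      simp only [phi_smul]
      rfl
    rw [h3, ← div_eq_mul_inv] at h1
    exact h1
  · have h1 : (∑ l, m l • B l : κ → ℤ) ∈ rel D hu := by
      rw [mem_rel, phi_sum hu]
      simp only [phi_smul]
      exact hm
    rw [← Submodule.Quotient.mk_eq_zero, ← Submodule.mkQ_apply, map_sum] at h1
    simp only [map_zsmul, Submodule.mkQ_apply, hB] at h1
    exact funext (Fintype.linearIndependent_iff.1 b.linearIndependent m h1)

end Pool.Agent.LUB.H35
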